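import Pool.Agent.W295.PR.Stm

/-!
# Project PR (helper295), piece PARRY: Parry's trick.
-/

set_option autoImplicit false

open Topology

namespace Pool.Agent.W648.PR.PARRY

open Pool.Agent.W295.PR

/-- a point of the circle all of whose powers keep `z` in the half plane `Re > 1/2` is `1` -/
theorem circle_eq_one (l z : Circle) (h : ∀ k : ℕ, (1 / 2 : ℝ) < (((l ^ k * z : Circle)) : ℂ).re) :
    l = 1 := by
  by_contra hl
  have hl' : (l : ℂ) ≠ 1 := by
    intro h1
    exact hl (Circle.ext (by simpa using h1))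
  have hsub : (l : ℂ) - 1 ≠ 0 := sub_ne_zero.2 hl'
  have hpos : 0 < ‖(l : ℂ) - 1‖ := norm_pos_iff.2 hsub
  obtain ⟨n, hn⟩ := exists_nat_gt (4 / ‖(l : ℂ) - 1‖)
  have hsum : (∑ k ∈ Finset.range n, ((l ^ k * z : Circle) : ℂ)) * ((l : ℂ) - 1)
      = ((l : ℂ) ^ n - 1) * (z : ℂ) := by
    have : (∑ k ∈ Finset.range n, ((l ^ k * z : Circle) : ℂ))
        = (∑ k ∈ Finset.range n, (l : ℂ) ^ k) * (z : ℂ) := by
      rw [Finset.sum_mul]
      refine Finset.sum_congr rfl fun k _ => ?_
      push_cast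
      rfl
    rw [this, mul_right_comm, geom_sum_mul]
  have hnorm : ‖(∑ k ∈ Finset.range n, ((l ^ k * z : Circle) : ℂ))‖ * ‖(l : ℂ) - 1‖ ≤ 2 := by
    rw [← norm_mul, hsum, norm_mul, Circle.norm_coe, mul_one]
    calc ‖(l : ℂ) ^ n - 1‖ ≤ ‖(l : ℂ) ^ n‖ + ‖(1 : ℂ)‖ := norm_sub_le _ _
      _ = 2 := by rw [norm_pow, Circle.norm_coe, one_pow, norm_one]; norm_num
  have hre : (n : ℝ) / 2 ≤ ‖(∑ k ∈ Finset.range n, ((l ^ k * z : Circle) : ℂ))‖ := by
    calc (n : ℝ) / 2 = ∑ k ∈ Finset.range n, (1 / 2 : ℝ) := by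
          rw [Finset.sum_const, Finset.card_range]; simp; ring
      _ ≤ ∑ k ∈ Finset.range n, (((l ^ k * z : Circle)) : ℂ).re :=
          Finset.sum_le_sum fun k _ => (h k).le
      _ = (∑ k ∈ Finset.range n, ((l ^ k * z : Circle) : ℂ)).re := by rw [Complex.re_sum]
      _ ≤ _ := Complex.re_le_norm _
  have h2 : (n : ℝ) / 2 * ‖(l : ℂ) - 1‖ ≤ 2 :=
    le_trans (mul_le_mul_of_nonneg_right hre hpos.le) hnorm
  rw [div_lt_iff₀ hpos] at hn
  linarith

section
variable {Y C P : Type} [TopologicalSpace Y] [CommGroup C] [TopologicalSpace C]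
  [Group P] [TopologicalSpace P] (E : Dyn Y C P)

theorem w_mem : E.w ∈ E.Om := subset_closure ⟨1, E.ap_one _⟩

theorem ap_contY (g : P) : Continuous (E.ap g) :=
  E.ap_cont.comp (Continuous.prodMk continuous_const continuous_id)

theorem ap_mem (g : P) {y : Y} (hy : y ∈ E.Om) : E.ap g y ∈ E.Om := by
  have h1 : Set.MapsTo (E.ap g) (Set.range fun g : P => E.ap g E.w)
      (Set.range fun g : P => E.ap g E.w) := by
    rintro _ ⟨k, rfl⟩
    exact ⟨g * k, E.ap_mul _ _ _⟩
  exact h1.closure (ap_contY E g) hy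

end

theorem main : S_Parry := by
  intro Y C P _ _ _ _ _ _ _ _ _ _ _ E hInv L1 hL1 hMin χ φ hOb hconn hJ
  obtain ⟨hχmul, hχne, hφc, hφac, hφTS⟩ := hOb
  obtain ⟨J, hJ⟩ := hJ
  have hOmc : IsClosed E.Om := isClosed_closure
  have hOmK : IsCompact E.Om := hOmc.isCompact
  -- the claim
  have claim : ∀ k n : ℕ, n + k = J → ∀ g ∈ E.QQ n, ∃ l : Circle, ∀ y ∈ E.Om,
      φ (E.ap g y) = l * φ y := by
    intro k
    induction k with
    | zero =>
      intro n hn g hg
      rw [Nat.add_zero] at hn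
      subst hn
      rw [hJ, Subgroup.mem_bot] at hg
      subst hg
      exact ⟨1, fun y _ => by rw [E.ap_one, one_mul]⟩
    | succ k ih =>
      intro n hn
      have ih' := ih (n + 1) (by omega)
      -- twisted invariance
      have keyT : ∀ g ∈ E.QQ n, ∃ l : Circle, ∀ y ∈ E.Om,
          φ (E.ap g (E.T y)) * (φ (E.T y))⁻¹ = l * (φ (E.ap g y) * (φ y)⁻¹) := by
        intro g hg
        obtain ⟨l, hl⟩ := ih' (E.t g * g⁻¹) (Subgroup.subset_closure (Or.inl ⟨g, hg, rfl⟩))
        refine ⟨l, fun y hy => ?_⟩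
        have h1 : E.ap g (E.T y) = E.T (E.ap (E.t g) y) := by
          rw [E.t_eq, Homeomorph.apply_symm_apply]
        have h2 : E.ap (E.t g) y = E.ap (E.t g * g⁻¹) (E.ap g y) := by
          rw [← E.ap_mul, inv_mul_cancel_right]
        rw [h1, (hφTS _ (ap_mem E _ hy)).1, h2, hl _ (ap_mem E _ hy), (hφTS y hy).1, mul_assoc]
      have keyS : ∀ g ∈ E.QQ n, ∃ l : Circle, ∀ y ∈ E.Om,
          φ (E.ap g (E.S y)) * (φ (E.S y))⁻¹ = l * (φ (E.ap g y) * (φ y)⁻¹) := by
        intro g hg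
        obtain ⟨l, hl⟩ := ih' (E.s g * g⁻¹) (Subgroup.subset_closure (Or.inr ⟨g, hg, rfl⟩))
        refine ⟨l, fun y hy => ?_⟩
        have h1 : E.ap g (E.S y) = E.S (E.ap (E.s g) y) := by
          rw [E.s_eq, Homeomorph.apply_symm_apply]
        have h2 : E.ap (E.s g) y = E.ap (E.s g * g⁻¹) (E.ap g y) := by
          rw [← E.ap_mul, inv_mul_cancel_right]
        rw [h1, (hφTS _ (ap_mem E _ hy)).2, h2, hl _ (ap_mem E _ hy), (hφTS y hy).2, mul_assoc]
      -- powers
      have invOf : ∀ (g : P) (A : Y → Y), (∀ y ∈ E.Om, A y ∈ E.Om) →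
          (∃ l : Circle, ∀ y ∈ E.Om,
            φ (E.ap g (A y)) * (φ (A y))⁻¹ = l * (φ (E.ap g y) * (φ y)⁻¹)) →
          (∀ y ∈ E.Om, (1 / 2 : ℝ) < ((φ (E.ap g y) * (φ y)⁻¹ : Circle) : ℂ).re) →
          ∀ y ∈ E.Om, φ (E.ap g (A y)) * (φ (A y))⁻¹ = φ (E.ap g y) * (φ y)⁻¹ := by
        intro g A hA ⟨l, hl⟩ hre y hy
        have hit : ∀ m : ℕ, A^[m] y ∈ E.Om ∧
            φ (E.ap g (A^[m] y)) * (φ (A^[m] y))⁻¹ = l ^ m * (φ (E.ap g y) * (φ y)⁻¹) := by
          intro m
          induction m with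
          | zero => exact ⟨hy, by simp⟩
          | succ m ihm =>
            rw [Function.iterate_succ_apply']
            refine ⟨hA _ ihm.1, ?_⟩
            rw [hl _ ihm.1, ihm.2, pow_succ', mul_assoc]
        have hl1 : l = 1 := by
          refine circle_eq_one l (φ (E.ap g y) * (φ y)⁻¹) fun m => ?_
          rw [← (hit m).2]
          exact hre _ (hit m).1
        rw [hl y hy, hl1, one_mul]
      -- elements near 1
      have near : ∀ g ∈ E.QQ n,
          (∀ y ∈ E.Om, (1 / 2 : ℝ) < ((φ (E.ap g y) * (φ y)⁻¹ : Circle) : ℂ).re) →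
          ∃ l : Circle, ∀ y ∈ E.Om, φ (E.ap g y) = l * φ y := by
        intro g hg hre
        have hT := invOf g E.T (fun y hy => (hInv y hy).1) (keyT g hg) hre
        have hS := invOf g E.S (fun y hy => (hInv y hy).2.2.1) (keyS g hg) hre
        have hfc : ContinuousOn (fun y => φ (E.ap g y) * (φ y)⁻¹) E.Om := by
          refine ContinuousOn.mul ?_ hφc.inv
          exact hφc.comp (ap_contY E g).continuousOn fun y hy => ap_mem E g hy
        have hF : {y | y ∈ E.Om ∧ φ (E.ap g y) * (φ y)⁻¹ = φ (E.ap g E.w) * (φ E.w)⁻¹} = E.Om := by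
          refine hMin _ (fun y hy => hy.1) ?_ ⟨E.w, w_mem E, rfl⟩ ?_ ?_
          · have := hfc.preimage_isClosed_of_isClosed hOmc
              (isClosed_singleton (x := φ (E.ap g E.w) * (φ E.w)⁻¹))
            exact this
          · rintro y ⟨hy, hfy⟩
            refine ⟨⟨(hInv y hy).1, ?_⟩, ⟨(hInv y hy).2.1, ?_⟩, ⟨(hInv y hy).2.2.1, ?_⟩,
              ⟨(hInv y hy).2.2.2, ?_⟩⟩
            · rw [hT y hy, hfy]
            · have := hT _ (hInv y hy).2.1
              rw [Homeomorph.apply_symm_apply] at this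
              rw [← this, hfy]
            · rw [hS y hy, hfy]
            · have := hS _ (hInv y hy).2.2.2
              rw [Homeomorph.apply_symm_apply] at this
              rw [← this, hfy]
          · rintro c hc y ⟨hy, hfy⟩
            refine ⟨((hL1 hc) y).1 hy, ?_⟩
            rw [E.comm, hφac c hc _ (ap_mem E g hy), hφac c hc y hy, mul_inv,
              mul_mul_mul_comm, mul_inv_cancel, one_mul, hfy]
        refine ⟨φ (E.ap g E.w) * (φ E.w)⁻¹, fun y hy => ?_⟩
        have hy' : y ∈ {y | y ∈ E.Om ∧ φ (E.ap g y) * (φ y)⁻¹ = φ (E.ap g E.w) * (φ E.w)⁻¹} := by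
          rw [hF]; exact hy
        rw [← hy'.2, inv_mul_cancel_right]
      -- a neighbourhood of 1
      have hnb : ∃ U : Set P, IsOpen U ∧ (1 : P) ∈ U ∧ ∀ g ∈ U, ∀ y ∈ E.Om,
          (1 / 2 : ℝ) < ((φ (E.ap g y) * (φ y)⁻¹ : Circle) : ℂ).re := by
        have hc1 : Continuous (E.Om.domRestrict φ) := hφc.domRestrict
        have hc2 : Continuous fun p : P × E.Om => (⟨E.ap p.1 p.2, ap_mem E p.1 p.2.2⟩ : E.Om) :=
          (E.ap_cont.comp (Continuous.prodMk continuous_fst
            (continuous_subtype_val.comp continuous_snd))).subtype_mk _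
        have hc3 : Continuous fun p : P × E.Om =>
            ((φ (E.ap p.1 p.2) * (φ p.2)⁻¹ : Circle) : ℂ).re := by
          refine Complex.continuous_re.comp (continuous_subtype_val.comp ?_)
          exact (hc1.comp hc2).mul (hc1.comp continuous_snd).inv
        have hopen : IsOpen {p : P × E.Om |
            (1 / 2 : ℝ) < ((φ (E.ap p.1 p.2) * (φ p.2)⁻¹ : Circle) : ℂ).re} :=
          isOpen_lt continuous_const hc3
        have : CompactSpace E.Om := isCompact_iff_compactSpace.1 hOmK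
        obtain ⟨u, v, hu, _, h1u, hv, huv⟩ := generalized_tube_lemma
          (isCompact_singleton (x := (1 : P))) (isCompact_univ (X := E.Om)) hopen
          (by
            rintro ⟨p, y⟩ ⟨hp, _⟩
            have hp' : p = 1 := hp
            subst hp'
            simp only [Set.mem_ofPred_eq]
            rw [E.ap_one, mul_inv_cancel, Circle.coe_one, Complex.one_re]
            norm_num)
        refine ⟨u, hu, h1u rfl, fun g hg y hy => ?_⟩
        have := huv (show ((g, (⟨y, hy⟩ : E.Om)) : P × E.Om) ∈ u ×ˢ v from ⟨hg, hv trivial⟩)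
        exact this
      -- the subgroup
      obtain ⟨U, hU, h1U, hUg⟩ := hnb
      let O : Subgroup (E.QQ n) :=
        { carrier := {g | ∃ l : Circle, ∀ y ∈ E.Om, φ (E.ap (g : P) y) = l * φ y}
          one_mem' := ⟨1, fun y _ => by rw [Subgroup.coe_one, E.ap_one, one_mul]⟩
          mul_mem' := by
            rintro a b ⟨l, hl⟩ ⟨m, hm⟩
            refine ⟨l * m, fun y hy => ?_⟩
            rw [Subgroup.coe_mul, E.ap_mul, hl _ (ap_mem E _ hy), hm y hy, mul_assoc]
          inv_mem' := by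
            rintro a ⟨l, hl⟩
            refine ⟨l⁻¹, fun y hy => ?_⟩
            have := hl (E.ap ((a⁻¹ : E.QQ n) : P) y) (ap_mem E _ hy)
            rw [Subgroup.coe_inv, ← E.ap_mul, mul_inv_cancel, E.ap_one] at this
            rw [Subgroup.coe_inv, this, inv_mul_cancel_left] }
      have hOopen : IsOpen (O : Set (E.QQ n)) := by
        refine O.isOpen_of_mem_nhds (g := 1) ?_
        have hU' : ((↑) : E.QQ n → P) ⁻¹' U ∈ 𝓝 (1 : E.QQ n) :=
          (hU.preimage continuous_subtype_val).mem_nhds (by simpa using h1U)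
        refine Filter.mem_of_superset hU' fun g hg => ?_
        exact near g g.2 (hUg _ hg)
      have : PreconnectedSpace (E.QQ n) := isPreconnected_iff_preconnectedSpace.1 (hconn n)
      have hOtop : (O : Set (E.QQ n)) = Set.univ :=
        IsClopen.eq_univ ⟨O.isClosed_of_isOpen hOopen, hOopen⟩ ⟨1, O.one_mem⟩
      intro g hg
      have : (⟨g, hg⟩ : E.QQ n) ∈ (O : Set (E.QQ n)) := by rw [hOtop]; trivial
      exact this
  have h0 : ∀ g : P, ∃ l : Circle, ∀ y ∈ E.Om, φ (E.ap g y) = l * φ y := fun g =>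
    claim J 0 (Nat.zero_add J) g (by
      show g ∈ (⊤ : Subgroup P)
      trivial)
  choose lam hlam using h0
  exact ⟨lam, hlam⟩

end Pool.Agent.W648.PR.PARRY
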